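import Pool.Agent.Helper61.Tri.Goals

/-!
# MP_5b3c48_co, packet NOG2GRID
-/

set_option autoImplicit false

open Finset

namespace Pool.Agent.Helper90.Tri

open Pool.Agent.Helper61.Tri

noncomputable section

open scoped Classical

theorem mem_cn {V : Type} [Fintype V] {G : SimpleGraph V} {u v y : V} :
    y ∈ cn G u v ↔ G.Adj u y ∧ G.Adj v y := by
  simp [cn]

/-- The choice of `s + 1` common neighbours. -/
theorem choose_cn {V : Type} [Fintype V] {G : SimpleGraph V} {s : ℕ} {u v : V}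
    (h : s + 1 ≤ (cn G u v).card) :
    ∃ φ : Fin (s + 1) → V, Function.Injective φ ∧ ∀ l, φ l ∈ cn G u v := by
  obtain ⟨T, hT, hT'⟩ := Finset.exists_subset_card_eq h
  refine ⟨fun l => ((T.equivFinOfCardEq hT').symm l : V), fun a b hab => ?_, fun l => ?_⟩
  · exact (T.equivFinOfCardEq hT').symm.injective (Subtype.ext hab)
  · exact hT ((T.equivFinOfCardEq hT').symm l).2

/-- The family of functions on the grid. -/
def fam {V : Type} {s : ℕ} (x w : ℕ → V) (F : ℕ → ℕ → Fin (s + 1) → V) :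
    Fin (s + 3) → ℕ → ℕ → V :=
  Fin.cons (fun i _ => x i) (Fin.cons (fun _ j => w j) fun l i j => F i j l)

theorem fam_zero {V : Type} {s : ℕ} (x w : ℕ → V) (F : ℕ → ℕ → Fin (s + 1) → V) :
    fam x w F 0 = fun i _ => x i := rfl

theorem fam_one {V : Type} {s : ℕ} (x w : ℕ → V) (F : ℕ → ℕ → Fin (s + 1) → V) :
    fam x w F (Fin.succ 0) = fun _ j => w j := rfl

theorem fam_two {V : Type} {s : ℕ} (x w : ℕ → V) (F : ℕ → ℕ → Fin (s + 1) → V)
    (l : Fin (s + 1)) : fam x w F l.succ.succ = fun i j => F i j l := rfl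

/-- **Packet NOG2GRID.** -/
theorem nog2grid : SD → E1 → E2 → E3 → NoG2Grid := by
  intro sd e1 e2 e3 s hs
  obtain ⟨N, hN⟩ := sd (s + 3) (40 * s + 100)
  set m := 40 * s + 100 with hm
  refine ⟨N, fun V _ G x w hG hcn => ?_⟩
  have hch : ∀ i j : ℕ, ∃ φ : Fin (s + 1) → V, i < N → j < N →
      Function.Injective φ ∧ ∀ l, G.Adj (x i) (φ l) ∧ G.Adj (w j) (φ l) := by
    intro i j
    by_cases h : i < N ∧ j < N
    · obtain ⟨φ, h1, h2⟩ := choose_cn (hcn i h.1 j h.2)
      exact ⟨φ, fun _ _ => ⟨h1, fun l => mem_cn.1 (h2 l)⟩⟩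
    · exact ⟨fun _ => x 0, fun h1 h2 => absurd ⟨h1, h2⟩ h⟩
  choose F hF using hch
  have hdis : ∀ i < N, ∀ j < N, ∀ l l', l ≠ l' → fam x w F l i j ≠ fam x w F l' i j := by
    intro i hi j hj
    obtain ⟨hinj, hadj⟩ := hF i j hi hj
    have key : ∀ l l' : Fin (s + 3), l < l' → fam x w F l i j ≠ fam x w F l' i j := by
      intro l l'
      refine Fin.cases ?_ (fun l1 => ?_) l
      · refine Fin.cases (fun h => absurd h (lt_irrefl _)) (fun l1' => ?_) l'
        refine Fin.cases (fun _ => ?_) (fun l2' _ => ?_) l1'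
        · exact (hG.adj i hi j hj).ne
        · exact (hadj l2').1.ne
      · refine Fin.cases (fun h => absurd h (Fin.not_lt_zero _)) (fun l1' => ?_) l'
        refine Fin.cases ?_ (fun l2 => ?_) l1
        · refine Fin.cases (fun h => absurd h (lt_irrefl _)) (fun l2' _ => ?_) l1'
          exact (hadj l2').2.ne
        · refine Fin.cases (fun h => ?_) (fun l2' h => ?_) l1'
          · exact absurd (Fin.succ_lt_succ_iff.1 h) (Fin.not_lt_zero _)
          · have h1 : l2 < l2' := Fin.succ_lt_succ_iff.1 (Fin.succ_lt_succ_iff.1 h)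
            exact fun h2 => h1.ne (hinj h2)
    intro l l' h
    rcases lt_or_gt_of_ne h with h1 | h1
    · exact key l l' h1
    · exact (key l' l h1).symm
  obtain ⟨ρ, γ, h1, h2, h3, h4⟩ := hN V (fam x w F) hdis
  have hm0 : 0 < m := by omega
  have hG' : Grid G m (fun i => x (ρ i)) (fun j => w (γ j)) := by
    refine ⟨fun i hi j hj => hG.adj _ (h1 i hi).1 _ (h1 j hj).2, fun i hi j hj h => ?_,
      fun i hi j hj h => ?_⟩
    · by_contra hij
      exact (h2 i hi j hj hij).1 (hG.injx _ (h1 i hi).1 _ (h1 j hj).1 h)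
    · by_contra hij
      exact (h2 i hi j hj hij).2 (hG.injw _ (h1 i hi).2 _ (h1 j hj).2 h)
  set g : Fin (s + 1) → ℕ → ℕ → V := fun l i j => F (ρ i) (γ j) l with hg
  have gx : ∀ l, ∀ i < m, ∀ j < m, G.Adj (x (ρ i)) (g l i j) := fun l i hi j hj =>
    ((hF _ _ (h1 i hi).1 (h1 j hj).2).2 l).1
  have gw : ∀ l, ∀ i < m, ∀ j < m, G.Adj (w (γ j)) (g l i j) := fun l i hi j hj =>
    ((hF _ _ (h1 i hi).1 (h1 j hj).2).2 l).2
  have gg : ∀ l l', l ≠ l' → DD m (g l) (g l') := fun l l' h =>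
    h4 l.succ.succ l'.succ.succ (fun h' => h (Fin.succ_injective _ (Fin.succ_injective _ h')))
  have gnx : ∀ l, DD m (g l) (fun i _ => x (ρ i)) := fun l =>
    h4 l.succ.succ 0 (Fin.succ_ne_zero _)
  have gnw : ∀ l, DD m (g l) (fun _ j => w (γ j)) := fun l =>
    h4 l.succ.succ (Fin.succ 0) (fun h' => Fin.succ_ne_zero _ (Fin.succ_injective _ h'))
  have hcd : ∀ l, (∀ i < m, ∀ j < m, ∀ i' < m, ∀ j' < m, g l i j = g l i' j') ∨ DI m (g l) :=
    fun l => h3 l.succ.succ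
  have hcen : ∀ l, (∀ i < m, ∀ j < m, ∀ i' < m, ∀ j' < m, g l i j = g l i' j') →
      Center G m (fun i => x (ρ i)) (fun j => w (γ j)) (g l 0 0) := by
    intro l hl i hi
    refine ⟨?_, ?_⟩
    · rw [hl 0 hm0 0 hm0 i hi 0 hm0]
      exact gx l i hi 0 hm0
    · rw [hl 0 hm0 0 hm0 0 hm0 i hi]
      exact gw l 0 hm0 i hi
  have hapex : ∀ l, DI m (g l) → Apex G m (fun i => x (ρ i)) (fun j => w (γ j)) (g l) :=
    fun l hl => ⟨gx l, gw l, hl, gnx l, gnw l⟩
  by_cases hall : ∀ l, ∀ i < m, ∀ j < m, ∀ i' < m, ∀ j' < m, g l i j = g l i' j'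
  · obtain ⟨a, b, -⟩ := e1 s (by omega) V G m _ _ le_rfl hG' (fun l => g l 0 0)
      (fun l l' h => by
        by_contra hne
        exact gg l l' hne 0 hm0 0 hm0 0 hm0 0 hm0 h) fun l => hcen l (hall l)
    exact ⟨a, b⟩
  · obtain ⟨l0, hl0⟩ := not_forall.1 hall
    have hd0 : DI m (g l0) := (hcd l0).resolve_left hl0
    by_cases hrest : ∀ l, l ≠ l0 → ∀ i < m, ∀ j < m, ∀ i' < m, ∀ j' < m, g l i j = g l i' j'
    · obtain ⟨a, b, -⟩ := e2 s hs V G m _ _ le_rfl hG' (fun t => g (l0.succAbove t) 0 0)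
        (fun t t' h => by
          by_contra hne
          exact gg _ _ (fun h' => hne (Fin.succAbove_right_injective h')) 0 hm0 0 hm0 0 hm0 0 hm0 h)
        (fun t => hcen _ (hrest _ (Fin.succAbove_ne l0 t))) (g l0) (hapex l0 hd0)
        (fun t i hi j hj i' _ j' _ => gg l0 _ (Fin.succAbove_ne l0 t).symm i hi j hj 0 hm0 0 hm0)
      exact ⟨a, b⟩
    · obtain ⟨l1, hl1⟩ := not_forall.1 hrest
      obtain ⟨hne, hl1'⟩ := Classical.not_imp.1 hl1
      have hd1 : DI m (g l1) := (hcd l1).resolve_left hl1'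
      exact e3 s (by omega) V G m _ _ le_rfl hG' (g l0) (g l1) (hapex l0 hd0) (hapex l1 hd1)
        (gg l0 l1 hne.symm)

end

end Pool.Agent.Helper90.Tri
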