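import Pool.Agent.Helper61.Tri.Goals2

/-!
# MP_5b3c48_co, packet TRISTR
-/

set_option autoImplicit false

open Finset

namespace Pool.Agent.Helper90.Tri

open Pool.Agent.Helper61.Tri

noncomputable section

open scoped Classical

variable {V : Type}

/-! ### The number of orderings of a triangle -/

theorem fibre [Fintype V] (G : SimpleGraph V) {S : Finset V} (hS : G.IsNClique 3 S) :
    ((ot G).filter fun p => ({p.1, p.2.1, p.2.2} : Finset V) = S).card = 6 := by
  obtain ⟨a, b, c, hab, hac, hbc, rfl⟩ := SimpleGraph.is3Clique_iff.1 hS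
  have n1 := hab.ne
  have n2 := hac.ne
  have n3 := hbc.ne
  have h : ((ot G).filter fun p => ({p.1, p.2.1, p.2.2} : Finset V) = {a, b, c}) =
      {(a, b, c), (a, c, b), (b, a, c), (b, c, a), (c, a, b), (c, b, a)} := by
    ext ⟨x, y, z⟩
    simp only [ot, mem_filter, mem_univ, true_and, mem_insert, mem_singleton, Prod.mk.injEq]
    constructor
    · rintro ⟨⟨h1, h2, h3⟩, h4⟩
      have m1 := h1.ne
      have m2 := h2.ne
      have m3 := h3.ne
      have hx : x ∈ ({a, b, c} : Finset V) := by rw [← h4]; simp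
      have hy : y ∈ ({a, b, c} : Finset V) := by rw [← h4]; simp
      have hz : z ∈ ({a, b, c} : Finset V) := by rw [← h4]; simp
      simp only [mem_insert, mem_singleton] at hx hy hz
      rcases hx with rfl | rfl | rfl <;> rcases hy with rfl | rfl | rfl <;>
        rcases hz with rfl | rfl | rfl <;> simp_all
    · rintro (⟨rfl, rfl, rfl⟩ | ⟨rfl, rfl, rfl⟩ | ⟨rfl, rfl, rfl⟩ | ⟨rfl, rfl, rfl⟩ |
        ⟨rfl, rfl, rfl⟩ | ⟨rfl, rfl, rfl⟩)
      · exact ⟨⟨hab, hac, hbc⟩, rfl⟩
      · exact ⟨⟨hac, hab, hbc.symm⟩, by ext t; simp only [mem_insert, mem_singleton]; tauto⟩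
      · exact ⟨⟨hab.symm, hbc, hac⟩, by ext t; simp only [mem_insert, mem_singleton]; tauto⟩
      · exact ⟨⟨hbc, hab.symm, hac.symm⟩, by ext t; simp only [mem_insert, mem_singleton]; tauto⟩
      · exact ⟨⟨hac.symm, hbc.symm, hab⟩, by ext t; simp only [mem_insert, mem_singleton]; tauto⟩
      · exact ⟨⟨hbc.symm, hac.symm, hab.symm⟩,
          by ext t; simp only [mem_insert, mem_singleton]; tauto⟩
  rw [h]
  have n1' := n1.symm
  have n2' := n2.symm
  have n3' := n3.symm
  simp [n1, n2, n3, n1', n2', n3']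

theorem six_tri [Fintype V] (G : SimpleGraph V) : 6 * tri G = (ot G).card := by
  have h1 : tri G = (univ.filter fun S : Finset V => G.IsNClique 3 S).card := by
    unfold tri
    rw [Nat.card_eq_fintype_card, Fintype.card_subtype]
  have h2 := Finset.card_eq_sum_card_fiberwise (s := ot G)
    (f := fun p : V × V × V => ({p.1, p.2.1, p.2.2} : Finset V))
    (t := univ.filter fun S : Finset V => G.IsNClique 3 S) (by
      rintro ⟨x, y, z⟩ hp
      simp only [ot, coe_filter, mem_univ, true_and, Set.mem_ofPred_eq] at hp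
      simp only [coe_filter, mem_univ, true_and, Set.mem_ofPred_eq]
      exact SimpleGraph.is3Clique_iff.2 ⟨x, y, z, hp.1, hp.2.1, hp.2.2, rfl⟩)
  rw [h2, sum_congr rfl fun S hS => fibre G (mem_filter.1 hS).2, sum_const, smul_eq_mul, h1,
    mul_comm]

/-! ### Counting -/

/-- The indicator of a proposition. -/
def ind (P : Prop) : ℕ := if P then 1 else 0

theorem ind_pos {P : Prop} (h : P) : ind P = 1 := if_pos h

theorem ind_neg {P : Prop} (h : ¬ P) : ind P = 0 := if_neg h

theorem ind_congr {P Q : Prop} (h : P ↔ Q) : ind P = ind Q := by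
  rw [propext h]

theorem sum_ind (S T : Finset V) (P : V → Prop) (h : ∀ v, v ∈ T ↔ v ∈ S ∧ P v) :
    ∑ v ∈ S, ind (P v) = T.card := by
  have h1 : T = S.filter P := by
    ext v
    rw [mem_filter]
    exact h v
  rw [h1, card_filter]
  rfl

/-- the number of ordered triangles with vertices in given sets. -/
def NN (G : SimpleGraph V) (S1 S2 S3 : Finset V) : ℕ :=
  ∑ u ∈ S1, ∑ v ∈ S2, ∑ w ∈ S3, ind (G.Adj u v ∧ G.Adj u w ∧ G.Adj v w)

theorem NN_swap12 (G : SimpleGraph V) (S1 S2 S3 : Finset V) : NN G S1 S2 S3 = NN G S2 S1 S3 := by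
  unfold NN
  rw [sum_comm]
  refine sum_congr rfl fun v _ => sum_congr rfl fun u _ => sum_congr rfl fun w _ => ?_
  refine ind_congr ?_
  rw [G.adj_comm u v]
  tauto

theorem NN_swap23 (G : SimpleGraph V) (S1 S2 S3 : Finset V) : NN G S1 S2 S3 = NN G S1 S3 S2 := by
  unfold NN
  refine sum_congr rfl fun u _ => ?_
  rw [sum_comm]
  refine sum_congr rfl fun v _ => sum_congr rfl fun w _ => ?_
  refine ind_congr ?_
  rw [G.adj_comm v w]
  tauto

theorem NN_zero (G : SimpleGraph V) {S1 S2 S3 : Finset V}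
    (h : ∀ u ∈ S1, ∀ v ∈ S2, ∀ w ∈ S3, ¬ (G.Adj u v ∧ G.Adj u w ∧ G.Adj v w)) :
    NN G S1 S2 S3 = 0 := by
  unfold NN
  refine sum_eq_zero fun u hu => sum_eq_zero fun v hv => sum_eq_zero fun w hw => ?_
  exact ind_neg (h u hu v hv w hw)

theorem NN_prod (G : SimpleGraph V) {S1 S2 S3 : Finset V} (Q : V → V → Prop)
    (h : ∀ u ∈ S1, ∀ v ∈ S2, ∀ w ∈ S3, ((G.Adj u v ∧ G.Adj u w ∧ G.Adj v w) ↔ Q u v)) :
    NN G S1 S2 S3 = (∑ u ∈ S1, ∑ v ∈ S2, ind (Q u v)) * S3.card := by
  unfold NN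
  rw [sum_mul]
  refine sum_congr rfl fun u hu => ?_
  rw [sum_mul]
  refine sum_congr rfl fun v hv => ?_
  rw [sum_congr rfl fun w hw => ind_congr (h u hu v hv w hw), sum_const, smul_eq_mul, mul_comm]

theorem sum_ne {X : Finset V} {s : ℕ} (hs : X.card = s) :
    (∑ u ∈ X, ∑ v ∈ X, ind (u ≠ v)) = s * (s - 1) := by
  have h : ∀ u ∈ X, (∑ v ∈ X, ind (u ≠ v)) = s - 1 := by
    intro u hu
    rw [sum_ind X (X.erase u), card_erase_of_mem hu, hs]
    intro v
    rw [mem_erase, ne_comm]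
    tauto
  rw [sum_congr rfl h, sum_const, smul_eq_mul, hs]

theorem NN_XXX (G : SimpleGraph V) {X : Finset V} {s : ℕ} (hs : X.card = s)
    (h : ∀ u ∈ X, ∀ v ∈ X, (G.Adj u v ↔ u ≠ v)) : NN G X X X = s * (s - 1) * (s - 2) := by
  unfold NN
  have h1 : ∀ u ∈ X, ∀ v ∈ X, (∑ w ∈ X, ind (G.Adj u v ∧ G.Adj u w ∧ G.Adj v w)) =
      ind (u ≠ v) * (s - 2) := by
    intro u hu v hv
    by_cases huv : u = v
    · subst huv
      rw [ind_neg (fun h => h rfl), zero_mul]
      exact sum_eq_zero fun w _ => ind_neg fun h => h.1.ne rfl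
    · have h2 : (∑ w ∈ X, ind (G.Adj u v ∧ G.Adj u w ∧ G.Adj v w)) =
          ∑ w ∈ X, ind (u ≠ w ∧ v ≠ w) := by
        refine sum_congr rfl fun w hw => ind_congr ?_
        rw [h u hu v hv, h u hu w hw, h v hv w hw]
        exact ⟨fun h => h.2, fun h => ⟨huv, h⟩⟩
      rw [h2, sum_ind X ((X.erase u).erase v), ind_pos huv, one_mul,
        card_erase_of_mem (mem_erase.2 ⟨fun h => huv h.symm, hv⟩), card_erase_of_mem hu, hs]
      · omega
      · intro w
        rw [mem_erase, mem_erase, ne_comm, ne_comm (a := w) (b := u)]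
        tauto
  rw [sum_congr rfl fun u hu => sum_congr rfl fun v hv => h1 u hu v hv]
  rw [← sum_ne hs, sum_mul]
  refine sum_congr rfl fun u _ => ?_
  rw [sum_mul]

/-- The counting lemma. -/
theorem count [Fintype V] (G : SimpleGraph V) {X A B : Finset V} {s a b : ℕ} (hX : X.card = s)
    (hA : A.card = a) (hB : B.card = b) (hXA : Disjoint X A) (hXB : Disjoint X B)
    (hAB : Disjoint A B) (hall : ∀ v, v ∈ X ∨ v ∈ A ∨ v ∈ B) (R : V → V → Prop)
    (hR : ∀ u v, R u v → u ∈ A ∧ v ∈ A ∧ u ≠ v) (hT : ∀ u v w, R u v → R u w → ¬ R v w)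
    (hG : ∀ u v, G.Adj u v ↔ u ≠ v ∧ (u ∈ X ∨ v ∈ X ∨ (u ∈ A ∧ v ∈ B) ∨ (u ∈ B ∧ v ∈ A) ∨
      R u v)) :
    (ot G).card = s * (s - 1) * (s - 2) + 3 * (s * (s - 1)) * (a + b) +
      3 * (∑ u ∈ A, ∑ v ∈ A, ind (R u v)) * (s + b) + 6 * (s * (a * b)) := by
  have dXA : ∀ v, v ∈ X → v ∉ A := fun v h h' => (disjoint_left.1 hXA) h h'
  have dXB : ∀ v, v ∈ X → v ∉ B := fun v h h' => (disjoint_left.1 hXB) h h'
  have dAB : ∀ v, v ∈ A → v ∉ B := fun v h h' => (disjoint_left.1 hAB) h h'
  -- adjacencies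
  have aXX : ∀ u ∈ X, ∀ v ∈ X, (G.Adj u v ↔ u ≠ v) := by
    intro u hu v hv
    rw [hG]
    tauto
  have aXA : ∀ u ∈ X, ∀ v ∈ A, G.Adj u v := by
    intro u hu v hv
    rw [hG]
    exact ⟨fun h => dXA u hu (h ▸ hv), Or.inl hu⟩
  have aXB : ∀ u ∈ X, ∀ v ∈ B, G.Adj u v := by
    intro u hu v hv
    rw [hG]
    exact ⟨fun h => dXB u hu (h ▸ hv), Or.inl hu⟩
  have aAB : ∀ u ∈ A, ∀ v ∈ B, G.Adj u v := by
    intro u hu v hv
    rw [hG]
    exact ⟨fun h => dAB u hu (h ▸ hv), Or.inr (Or.inr (Or.inl ⟨hu, hv⟩))⟩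
  have aAA : ∀ u ∈ A, ∀ v ∈ A, (G.Adj u v ↔ R u v) := by
    intro u hu v hv
    rw [hG]
    constructor
    · rintro ⟨_, h | h | h | h | h⟩
      · exact absurd hu (dXA u h)
      · exact absurd hv (dXA v h)
      · exact absurd h.2 (dAB v hv)
      · exact absurd h.1 (dAB u hu)
      · exact h
    · intro h
      exact ⟨(hR u v h).2.2, Or.inr (Or.inr (Or.inr (Or.inr h)))⟩
  have aBB : ∀ u ∈ B, ∀ v ∈ B, ¬ G.Adj u v := by
    intro u hu v hv
    rw [hG]
    rintro ⟨_, h | h | h | h | h⟩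
    · exact dXB u h hu
    · exact dXB v h hv
    · exact dAB u h.1 hu
    · exact dAB v h.2 hv
    · exact dAB u (hR u v h).1 hu
  -- the number as a sum
  have hsum : ∀ f : V → ℕ, ∑ u, f u = ∑ u ∈ X, f u + (∑ u ∈ A, f u + ∑ u ∈ B, f u) := by
    intro f
    have h1 : (univ : Finset V) = X ∪ (A ∪ B) := by
      ext v
      simp only [mem_univ, mem_union, true_iff]
      exact hall v
    rw [h1, sum_union (disjoint_union_right.2 ⟨hXA, hXB⟩), sum_union hAB]
  have h0 : (ot G).card = ∑ u, ∑ v, ∑ w, ind (G.Adj u v ∧ G.Adj u w ∧ G.Adj v w) := by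
    unfold ot
    rw [card_filter, Fintype.sum_prod_type]
    refine sum_congr rfl fun u _ => ?_
    rw [Fintype.sum_prod_type]
    refine sum_congr rfl fun v _ => sum_congr rfl fun w _ => ?_
    by_cases h : G.Adj u v ∧ G.Adj u w ∧ G.Adj v w
    · rw [ind_pos h]
      exact if_pos h
    · rw [ind_neg h]
      exact if_neg h
  have h1 : (ot G).card =
      (NN G X X X + (NN G X X A + NN G X X B) + (NN G X A X + (NN G X A A + NN G X A B) +
        (NN G X B X + (NN G X B A + NN G X B B)))) +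
      ((NN G A X X + (NN G A X A + NN G A X B) + (NN G A A X + (NN G A A A + NN G A A B) +
        (NN G A B X + (NN G A B A + NN G A B B)))) +
      (NN G B X X + (NN G B X A + NN G B X B) + (NN G B A X + (NN G B A A + NN G B A B) +
        (NN G B B X + (NN G B B A + NN G B B B))))) := by
    rw [h0, hsum]
    simp only [hsum, sum_add_distrib]
    unfold NN
    ring
  set r : ℕ := ∑ u ∈ A, ∑ v ∈ A, ind (R u v) with hr
  have v1 := NN_XXX G hX aXX
  have v2 : NN G X X A = s * (s - 1) * a := by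
    rw [NN_prod G (fun u v => u ≠ v), sum_ne hX, hA]
    intro u hu v hv w hw
    rw [aXX u hu v hv]
    exact ⟨fun h => h.1, fun h => ⟨h, aXA u hu w hw, aXA v hv w hw⟩⟩
  have v3 : NN G X X B = s * (s - 1) * b := by
    rw [NN_prod G (fun u v => u ≠ v), sum_ne hX, hB]
    intro u hu v hv w hw
    rw [aXX u hu v hv]
    exact ⟨fun h => h.1, fun h => ⟨h, aXB u hu w hw, aXB v hv w hw⟩⟩
  have v4 : NN G A A X = r * s := by
    rw [NN_prod G R, ← hr, hX]
    intro u hu v hv w hw
    rw [aAA u hu v hv]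
    exact ⟨fun h => h.1, fun h => ⟨h, (aXA w hw u hu).symm, (aXA w hw v hv).symm⟩⟩
  have v5 : NN G A A B = r * b := by
    rw [NN_prod G R, ← hr, hB]
    intro u hu v hv w hw
    rw [aAA u hu v hv]
    exact ⟨fun h => h.1, fun h => ⟨h, aAB u hu w hw, aAB v hv w hw⟩⟩
  have v6 : NN G A B X = a * b * s := by
    rw [NN_prod G (fun _ _ => True), hX]
    · simp [hA, hB, ind_pos]
    · intro u hu v hv w hw
      exact ⟨fun _ => trivial, fun _ => ⟨aAB u hu v hv, (aXA w hw u hu).symm,
        (aXB w hw v hv).symm⟩⟩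
  have v7 : NN G A A A = 0 := by
    refine NN_zero G fun u hu v hv w hw => ?_
    rw [aAA u hu v hv, aAA u hu w hw, aAA v hv w hw]
    rintro ⟨h1, h2, h3⟩
    exact hT u v w h1 h2 h3
  have v8 : NN G X B B = 0 := NN_zero G fun u _ v hv w hw h => aBB v hv w hw h.2.2
  have v9 : NN G A B B = 0 := NN_zero G fun u _ v hv w hw h => aBB v hv w hw h.2.2
  have v10 : NN G B B B = 0 := NN_zero G fun u _ v hv w hw h => aBB v hv w hw h.2.2
  have w1 : NN G X A X = s * (s - 1) * a := by rw [NN_swap23, v2]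
  have w2 : NN G A X X = s * (s - 1) * a := by rw [NN_swap12, w1]
  have w3 : NN G X B X = s * (s - 1) * b := by rw [NN_swap23, v3]
  have w4 : NN G B X X = s * (s - 1) * b := by rw [NN_swap12, w3]
  have w5 : NN G A X A = r * s := by rw [NN_swap23, v4]
  have w6 : NN G X A A = r * s := by rw [NN_swap12, w5]
  have w7 : NN G A B A = r * b := by rw [NN_swap23, v5]
  have w8 : NN G B A A = r * b := by rw [NN_swap12, w7]
  have w9 : NN G B A X = a * b * s := by rw [NN_swap12, v6]
  have w10 : NN G A X B = a * b * s := by rw [NN_swap23, v6]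
  have w11 : NN G X A B = a * b * s := by rw [NN_swap12, w10]
  have w12 : NN G X B A = a * b * s := by rw [NN_swap23, w11]
  have w13 : NN G B X A = a * b * s := by rw [NN_swap12, w12]
  have w14 : NN G B X B = 0 := by rw [NN_swap12, v8]
  have w15 : NN G B B X = 0 := by rw [NN_swap23, w14]
  have w16 : NN G B A B = 0 := by rw [NN_swap12, v9]
  have w17 : NN G B B A = 0 := by rw [NN_swap23, w16]
  rw [h1, v1, v2, v3, v4, v5, v6, v7, v8, v9, v10, w1, w2, w3, w4, w5, w6, w7, w8, w9, w10, w11,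
    w12, w13, w14, w15, w16, w17]
  ring

theorem six_div (s : ℕ) : 6 * (s * (s - 1) * (s - 2) / 6) = s * (s - 1) * (s - 2) := by
  refine Nat.mul_div_cancel' ?_
  have h := Nat.descFactorial_eq_factorial_mul_choose s 3
  have h2 : s.descFactorial 3 = s * (s - 1) * (s - 2) := by
    simp only [Nat.descFactorial, Nat.sub_zero]
    ring
  rw [h2] at h
  rw [h]
  exact Dvd.intro _ rfl

theorem two_div (s : ℕ) : 2 * (s * (s - 1) / 2) = s * (s - 1) :=
  Nat.mul_div_cancel' (Nat.even_mul_pred_self s).two_dvd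

/-- **Packet TRISTR.** -/
theorem tristr : TriStr := by
  intro V _ G s a b _
  have e1 := six_div s
  have e2 := two_div s
  refine ⟨six_tri G, ?_, ?_⟩
  · rintro ⟨X, A, B, hX, hA, hB, d1, d2, d3, hall, hG⟩
    have h := count G hX hA hB d1 d2 d3 hall (fun _ _ => False) (fun _ _ h => h.elim)
      (fun _ _ _ h => h.elim) (fun u v => by rw [hG]; tauto)
    simp only [ind_neg (fun h : False => h), sum_const_zero, mul_zero, zero_mul, add_zero] at h
    rw [h]
    calc s * (s - 1) * (s - 2) + 3 * (s * (s - 1)) * (a + b) + 6 * (s * (a * b))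
        = 6 * (s * (s - 1) * (s - 2) / 6) + 3 * (2 * (s * (s - 1) / 2)) * (a + b) +
          6 * (s * (a * b)) := by rw [e1, e2]
      _ = _ := by ring
  · rintro ⟨X, A, B, hX, hA, hB, d1, d2, d3, hall, p, hp, q, hq, hpq, hG⟩
    have h := count G hX hA hB d1 d2 d3 hall (fun u v => (u = p ∧ v = q) ∨ (u = q ∧ v = p))
      (by
        rintro u v (⟨rfl, rfl⟩ | ⟨rfl, rfl⟩)
        · exact ⟨hp, hq, hpq⟩
        · exact ⟨hq, hp, hpq.symm⟩)
      (by
        rintro u v w (⟨h1, h2⟩ | ⟨h1, h2⟩) (⟨h3, h4⟩ | ⟨h3, h4⟩) (⟨h5, h6⟩ | ⟨h5, h6⟩)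
        · exact hpq (h5.symm.trans h2)
        · exact hpq (h6.symm.trans h4)
        · exact hpq (h1.symm.trans h3)
        · exact hpq (h1.symm.trans h3)
        · exact hpq (h3.symm.trans h1)
        · exact hpq (h3.symm.trans h1)
        · exact hpq (h4.symm.trans h6)
        · exact hpq (h2.symm.trans h5))
      (fun u v => by rw [hG])
    have hr : (∑ u ∈ A, ∑ v ∈ A, ind ((u = p ∧ v = q) ∨ (u = q ∧ v = p))) = 2 := by
      have h1 : ∀ u ∈ A, (∑ v ∈ A, ind ((u = p ∧ v = q) ∨ (u = q ∧ v = p))) =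
          (if u = p then 1 else 0) + if u = q then 1 else 0 := by
        intro u _
        by_cases hup : u = p
        · subst hup
          have h2 : ∀ v ∈ A, ind ((u = u ∧ v = q) ∨ (u = q ∧ v = u)) = if v = q then 1 else 0 := by
            intro v _
            by_cases hv : v = q
            · rw [ind_pos (Or.inl ⟨rfl, hv⟩), if_pos hv]
            · rw [ind_neg, if_neg hv]
              rintro (⟨_, h⟩ | ⟨h, _⟩)
              · exact hv h
              · exact hpq h
          rw [sum_congr rfl h2, sum_ite_eq' A q, if_pos hq, if_pos rfl, if_neg hpq]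
        · by_cases huq : u = q
          · subst huq
            have h2 : ∀ v ∈ A, ind ((u = p ∧ v = u) ∨ (u = u ∧ v = p)) =
                if v = p then 1 else 0 := by
              intro v _
              by_cases hv : v = p
              · rw [ind_pos (Or.inr ⟨rfl, hv⟩), if_pos hv]
              · rw [ind_neg, if_neg hv]
                rintro (⟨h, _⟩ | ⟨_, h⟩)
                · exact hup h
                · exact hv h
            rw [sum_congr rfl h2, sum_ite_eq' A p, if_pos hp, if_pos rfl, if_neg hup]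
          · rw [if_neg hup, if_neg huq]
            refine sum_eq_zero fun v _ => ind_neg ?_
            rintro (⟨h, _⟩ | ⟨h, _⟩)
            · exact hup h
            · exact huq h
      rw [sum_congr rfl h1, sum_add_distrib, sum_ite_eq' A p, sum_ite_eq' A q, if_pos hp, if_pos hq]
    rw [hr] at h
    rw [h]
    calc s * (s - 1) * (s - 2) + 3 * (s * (s - 1)) * (a + b) + 3 * 2 * (s + b) + 6 * (s * (a * b))
        = 6 * (s * (s - 1) * (s - 2) / 6) + 3 * (2 * (s * (s - 1) / 2)) * (a + b) +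
          3 * 2 * (s + b) + 6 * (s * (a * b)) := by rw [e1, e2]
      _ = _ := by ring

end

end Pool.Agent.Helper90.Tri
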